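import Pool.Agent.H841.Super

/-!
The zero-information Arthur-Merlin complexity of set disjointness is superlogarithmic.

`AMProtocol`, `IsZAM` and `ZAM` are defined in `Pool.Agent.H570R2.ZamDefs`, and `DISJ` in
`Pool.Agent.H841.Embed`.
-/

namespace Pool.Agent.Results.MP_052029_lc.ZamDisjSuperlog

open Filter Topology Pool.Agent.H570R2 Pool.Agent.H841

/-- `ZAM(DISJ_n) / log₂ n → ∞`. -/
theorem result :
    Tendsto (fun n : ℕ => ((ZAM (DISJ n) : ℕ∞) : ENNReal) / ENNReal.ofReal (Real.logb 2 n))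
      atTop (𝓝 ⊤) := by
  rw [ENNReal.tendsto_nhds_top_iff_nat]
  intro C
  filter_upwards [zam_gt C, eventually_ge_atTop 2] with n hn hn2
  have hlog : 0 < Real.logb 2 n := Real.logb_pos (by norm_num) (by exact_mod_cast hn2)
  rw [ENNReal.lt_div_iff_mul_lt (Or.inl (by simpa using hlog)) (Or.inl ENNReal.ofReal_ne_top)]
  have h1 : ENNReal.ofReal (Real.logb 2 n) ≤ ((Nat.clog 2 n : ℕ) : ENNReal) := by
    rw [← ENNReal.ofReal_natCast]
    exact ENNReal.ofReal_le_ofReal (logb_le_clog n (by omega))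
  have h2 : (C : ENNReal) * ENNReal.ofReal (Real.logb 2 n) ≤ ((C * Nat.clog 2 n : ℕ) : ENNReal) := by
    push_cast
    gcongr
  refine lt_of_le_of_lt h2 ?_
  have h3 : ((C * Nat.clog 2 n + 1 : ℕ) : ENNReal) ≤ ((ZAM (DISJ n) : ℕ∞) : ENNReal) := by
    have h4 := ENat.toENNReal_le.2 hn
    simpa using h4
  refine lt_of_lt_of_le ?_ h3
  exact_mod_cast Nat.lt_succ_self _

end Pool.Agent.Results.MP_052029_lc.ZamDisjSuperlog
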